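import Pool.Agent.W533.LP.Stm2

/-! Project LP: law of the weights and integrability. -/

set_option autoImplicit false

namespace Pool.Agent.W45.LPG0

open MeasureTheory ProbabilityTheory
open Pool.Agent.W533.LP

/-! ### the deterministic bound -/

theorem G_zero_le (W : ℕ → ℕ → ℕ) (m n : ℕ) :
    G zero zero W m n ≤ ∑ i ∈ Finset.range m, ∑ j ∈ Finset.range n, W i j := by
  induction m generalizing n with
  | zero =>
    induction n with
    | zero => rw [G]; exact Nat.zero_le _
    | succ n ih =>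
      rw [G]
      simpa [zero] using ih
  | succ m ihm =>
    induction n with
    | zero =>
      rw [G]
      have := ihm 0
      simpa [zero] using this
    | succ n ihn =>
      rw [G]
      have h1 := ihm (n + 1)
      rw [Finset.sum_range_succ]
      rw [Finset.sum_range_succ] at ihn
      have h2 : ∑ j ∈ Finset.range (n + 1), W m j = ∑ j ∈ Finset.range n, W m j + W m n :=
        Finset.sum_range_succ _ _
      have h3 : ∑ i ∈ Finset.range m, ∑ j ∈ Finset.range n, W i j ≤
          ∑ i ∈ Finset.range m, ∑ j ∈ Finset.range (n + 1), W i j := by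
        refine Finset.sum_le_sum fun i _ => ?_
        rw [Finset.sum_range_succ]
        exact Nat.le_add_right _ _
      rw [h2]
      have h4 : max (G zero zero W m (n + 1)) (G zero zero W (m + 1) n) ≤
          ∑ i ∈ Finset.range m, ∑ j ∈ Finset.range (n + 1), W i j +
            ∑ j ∈ Finset.range n, W m j := by
        refine max_le (by omega) (by omega)
      omega

theorem sum_ex {n : ℕ} (W : V n → ℕ) :
    ∑ i ∈ Finset.range n, ∑ j ∈ Finset.range n, ex W i j = ∑ v, W v := by
  rw [Finset.sum_range, Fintype.sum_prod_type]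
  refine Finset.sum_congr rfl fun i _ => ?_
  rw [Finset.sum_range]
  refine Finset.sum_congr rfl fun j _ => ?_
  unfold ex
  rw [dif_pos ⟨i.2, j.2⟩]

theorem Tc_le {n : ℕ} (W : V n → ℕ) : Tc W ≤ ∑ v, W v := by
  rw [← sum_ex]
  exact G_zero_le _ _ _

/-! ### the geometric law -/

theorem geo_sing {q : ℝ} (k : ℕ) : geoM q {k} = ENNReal.ofReal ((1 - q) * q ^ k) := by
  unfold geoM
  rw [Measure.sum_apply _ (MeasurableSet.singleton k), tsum_eq_single k]
  · rw [Measure.smul_apply, Measure.dirac_apply' _ (MeasurableSet.singleton k)]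
    simp
  · intro j hj
    rw [Measure.smul_apply, Measure.dirac_apply' _ (MeasurableSet.singleton k),
      Set.indicator_of_notMem (by simpa using hj), smul_zero]

theorem geo_prob {q : ℝ} (h0 : 0 < q) (h1 : q < 1) : IsProbabilityMeasure (geoM q) := by
  constructor
  unfold geoM
  rw [Measure.sum_apply _ MeasurableSet.univ]
  have h2 : ∀ k : ℕ, (ENNReal.ofReal ((1 - q) * q ^ k) • Measure.dirac k) (Set.univ : Set ℕ) =
      ENNReal.ofReal ((1 - q) * q ^ k) := by
    intro k
    rw [Measure.smul_apply, measure_univ, smul_eq_mul, mul_one]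
  simp only [h2]
  have h3 : HasSum (fun k : ℕ => (1 - q) * q ^ k) 1 := by
    have h4 := (hasSum_geometric_of_lt_one h0.le h1).mul_left (1 - q)
    have h5 : (1 - q) * (1 - q)⁻¹ = 1 := mul_inv_cancel₀ (by linarith)
    rw [h5] at h4
    exact h4
  rw [← ENNReal.ofReal_tsum_of_nonneg (fun k => mul_nonneg (by linarith) (pow_nonneg h0.le k))
    h3.summable, h3.tsum_eq, ENNReal.ofReal_one]

theorem geo_int {q : ℝ} (h0 : 0 < q) (h1 : q < 1) (r : ℕ) :
    Integrable (fun k : ℕ => (k : ℝ) ^ r) (geoM q) := by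
  have hn : ‖q‖ < 1 := by rw [Real.norm_eq_abs, abs_of_pos h0]; exact h1
  have h2 : Summable (fun k : ℕ => (k : ℝ) ^ r * q ^ k) :=
    summable_pow_mul_geometric_of_norm_lt_one r hn
  have h3 := h2.mul_left (1 - q)
  have h4 : ∀ k : ℕ, (1 - q) * ((k : ℝ) ^ r * q ^ k) =
      (ENNReal.ofReal ((1 - q) * q ^ k)).toReal * ‖(k : ℝ) ^ r‖ := by
    intro k
    rw [ENNReal.toReal_ofReal (mul_nonneg (by linarith) (pow_nonneg h0.le k)), Real.norm_eq_abs,
      abs_of_nonneg (pow_nonneg (Nat.cast_nonneg k) r)]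
    ring
  simp only [h4] at h3
  unfold geoM
  exact integrable_sum_dirac (f := fun k : ℕ => (k : ℝ) ^ r) (x := fun k : ℕ => k)
    (fun k => ENNReal.ofReal_ne_top) h3

theorem geo_mean {q : ℝ} (h0 : 0 < q) (h1 : q < 1) : ∫ k : ℕ, (k : ℝ) ∂(geoM q) = mean q := by
  unfold geoM
  rw [integral_sum_dirac (fun k => ENNReal.ofReal_ne_top)]
  have h2 := tsum_coe_mul_geometric_of_norm_lt_one (𝕜 := ℝ) (r := q)
    (by rw [Real.norm_eq_abs, abs_of_pos h0]; exact h1)
  have h3 : ∀ k : ℕ, (ENNReal.ofReal ((1 - q) * q ^ k)).toReal • (k : ℝ) =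
      (1 - q) * ((k : ℝ) * q ^ k) := by
    intro k
    rw [ENNReal.toReal_ofReal (mul_nonneg (by linarith) (pow_nonneg h0.le k)), smul_eq_mul]
    ring
  simp only [h3]
  rw [tsum_mul_left, h2]
  unfold mean
  have : (1 - q) ≠ 0 := by linarith
  field_simp

theorem geo_memLp {q : ℝ} (h0 : 0 < q) (h1 : q < 1) (r : ℕ) :
    MemLp (fun k : ℕ => (k : ℝ)) r (geoM q) := by
  rcases Nat.eq_zero_or_pos r with rfl | hr
  · rw [Nat.cast_zero, memLp_zero_iff_aestronglyMeasurable]
    exact (Measurable.of_discrete).aestronglyMeasurable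
  · rw [← integrable_norm_rpow_iff (Measurable.of_discrete).aestronglyMeasurable
      (by exact_mod_cast hr.ne') (ENNReal.natCast_ne_top r)]
    refine (geo_int h0 h1 r).congr (Filter.Eventually.of_forall fun k => ?_)
    simp only
    rw [ENNReal.toReal_natCast, Real.rpow_natCast, Real.norm_eq_abs, abs_of_nonneg (by positivity)]

/-! ### products -/

theorem muY_prob {q : ℝ} (h0 : 0 < q) (h1 : q < 1) (n : ℕ) : IsProbabilityMeasure (muY q n) := by
  have := geo_prob h0 h1
  unfold muY
  infer_instance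

theorem muY_memLp {q : ℝ} (h0 : 0 < q) (h1 : q < 1) (n : ℕ) (r : ℕ) :
    MemLp (fun y : V n → ℕ => ∑ v, (y v : ℝ)) r (muY q n) := by
  have := geo_prob h0 h1
  refine memLp_finsetSum _ fun v _ => ?_
  unfold muY
  exact (geo_memLp h0 h1 r).comp_measurePreserving
    (measurePreserving_eval (fun _ : V n => geoM q) v)

theorem muY_int {q : ℝ} (h0 : 0 < q) (h1 : q < 1) (n : ℕ) (r : ℕ) :
    Integrable (fun y : V n → ℕ => (∑ v, (y v : ℝ)) ^ r) (muY q n) := by
  have := muY_prob h0 h1 n
  rcases Nat.eq_zero_or_pos r with rfl | hr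
  · simp only [pow_zero]
    exact integrable_const _
  · refine ((muY_memLp h0 h1 n r).integrable_norm_pow hr.ne').congr
      (Filter.Eventually.of_forall fun y => ?_)
    simp only
    rw [Real.norm_eq_abs, abs_of_nonneg (by positivity)]

/-- law of the second component of a hidden variable -/
noncomputable def nuS (q : ℝ) (s : ℕ) : Measure ℕ := if s = 0 then geoM q else Measure.dirac 0

/-- law of the first component -/
noncomputable def be (ρ : ℝ) : Measure Bool :=
  ENNReal.ofReal ρ • Measure.dirac true + ENNReal.ofReal (1 - ρ) • Measure.dirac false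

theorem be_prob {ρ : ℝ} (h0 : 0 < ρ) (h1 : ρ < 1) : IsProbabilityMeasure (be ρ) := by
  constructor
  unfold be
  rw [Measure.add_apply, Measure.smul_apply, Measure.smul_apply, measure_univ, measure_univ,
    smul_eq_mul, smul_eq_mul, mul_one, mul_one, ← ENNReal.ofReal_add h0.le (by linarith)]
  simp

theorem be_true (ρ : ℝ) : be ρ {true} = ENNReal.ofReal ρ := by
  unfold be
  rw [Measure.add_apply, Measure.smul_apply, Measure.smul_apply]
  simp

theorem be_false (ρ : ℝ) : be ρ {false} = ENNReal.ofReal (1 - ρ) := by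
  unfold be
  rw [Measure.add_apply, Measure.smul_apply, Measure.smul_apply]
  simp

theorem nuS_prob {q : ℝ} (h0 : 0 < q) (h1 : q < 1) (s : ℕ) : IsProbabilityMeasure (nuS q s) := by
  have := geo_prob h0 h1
  unfold nuS
  split_ifs <;> infer_instance

theorem hM_eq (q ρ : ℝ) (s : ℕ) : hM q ρ s = (be ρ).prod (nuS q s) := rfl

theorem hM_prob {q ρ : ℝ} {s : ℕ} (hP : Par q ρ s) : IsProbabilityMeasure (hM q ρ s) := by
  obtain ⟨h0, h1, h2, h3, -⟩ := hP
  have := be_prob h2 h3
  have := nuS_prob h0 h1 s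
  rw [hM_eq]
  infer_instance

theorem muH_prob {q ρ : ℝ} {s : ℕ} (hP : Par q ρ s) (n : ℕ) :
    IsProbabilityMeasure (muH q ρ s n) := by
  have := hM_prob hP
  unfold muH
  infer_instance

theorem nuS_mean {q ρ : ℝ} {s : ℕ} (hP : Par q ρ s) :
    Integrable (fun k : ℕ => (k : ℝ)) (nuS q s) ∧
      (s : ℝ) + ∫ k : ℕ, (k : ℝ) ∂(nuS q s) ≤ 1 + mean q := by
  obtain ⟨h0, h1, -, -, h4⟩ := hP
  have hm : 0 ≤ mean q := div_nonneg h0.le (by linarith)
  rcases h4 with rfl | ⟨rfl, -⟩
  · unfold nuS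
    rw [if_pos rfl]
    refine ⟨by simpa using geo_int h0 h1 1, ?_⟩
    rw [geo_mean h0 h1]
    push_cast
    linarith
  · unfold nuS
    rw [if_neg one_ne_zero]
    refine ⟨integrable_dirac (by simp), ?_⟩
    rw [integral_dirac]
    push_cast
    linarith

/-! ### the law of the weights -/

/-- one coordinate -/
def w1 (s : ℕ) (z : ℕ × Bool × ℕ) : ℕ := if z.2.1 then z.1 + s else z.2.2

theorem w1_law {q ρ : ℝ} {s : ℕ} (hP : Par q ρ s) :
    ((geoM q).prod (hM q ρ s)).map (w1 s) = geoM q := by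
  have hP' := hP
  obtain ⟨h0, h1, h2, h3, h4⟩ := hP
  have := geo_prob h0 h1
  have := be_prob h2 h3
  have := nuS_prob h0 h1 s
  have := hM_prob hP'
  refine Measure.ext_of_singleton fun k => ?_
  rw [Measure.map_apply Measurable.of_discrete (MeasurableSet.singleton k)]
  have hset : w1 s ⁻¹' {k} = ({y : ℕ | y + s = k} ×ˢ ({true} ×ˢ (Set.univ : Set ℕ))) ∪
      ((Set.univ : Set ℕ) ×ˢ ({false} ×ˢ {k})) := by
    ext ⟨y, b, x⟩
    cases b <;> simp [w1]
  rw [hset, measure_union]
  · rw [Measure.prod_prod, Measure.prod_prod, hM_eq, Measure.prod_prod, Measure.prod_prod,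
      measure_univ, measure_univ, mul_one, one_mul, be_true, be_false, geo_sing]
    have hq1 : 0 ≤ 1 - q := by linarith
    have hqk : ∀ k : ℕ, 0 ≤ (1 - q) * q ^ k := fun k => mul_nonneg hq1 (pow_nonneg h0.le k)
    rcases h4 with rfl | ⟨rfl, rfl⟩
    · have e1 : {y : ℕ | y + 0 = k} = {k} := by ext y; simp
      unfold nuS
      rw [if_pos rfl, e1, geo_sing, mul_comm (ENNReal.ofReal (1 - ρ)), ← mul_add,
        ← ENNReal.ofReal_add h2.le (by linarith)]
      simp
    · unfold nuS
      rw [if_neg one_ne_zero]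
      rcases Nat.eq_zero_or_pos k with rfl | hk
      · have e1 : {y : ℕ | y + 1 = 0} = ∅ := by ext y; simp
        rw [e1, measure_empty, zero_mul, zero_add]
        simp
      · have e1 : {y : ℕ | y + 1 = k} = {k - 1} := by ext y; simp; omega
        have e2 : (Measure.dirac (0 : ℕ)) ({k} : Set ℕ) = 0 := by
          rw [Measure.dirac_apply' _ (MeasurableSet.singleton k)]
          exact Set.indicator_of_notMem (by simpa using hk.ne) _
        rw [e1, geo_sing, e2, mul_zero, add_zero, ← ENNReal.ofReal_mul (hqk _)]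
        congr 1
        obtain ⟨k, rfl⟩ : ∃ j, k = j + 1 := ⟨k - 1, by omega⟩
        rw [Nat.add_sub_cancel]
        ring
  · rw [Set.disjoint_left]
    rintro ⟨y, b, x⟩ hx hx'
    have hb : b = true := hx.2.1
    have hb' : b = false := hx'.2.1
    rw [hb] at hb'
    exact absurd hb' (by decide)
  · exact MeasurableSet.of_discrete

theorem law {q ρ : ℝ} {s : ℕ} (hP : Par q ρ s) (n : ℕ) :
    Measure.map (fun z : (V n → ℕ) × (V n → Bool × ℕ) => Wt s z.1 z.2)
      ((muY q n).prod (muH q ρ s n)) = muY q n := by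
  have hg := geo_prob hP.1 hP.2.1
  have hh := hM_prob hP
  have h1 := measurePreserving_arrowProdEquivProdArrow ℕ (Bool × ℕ) (V n) (fun _ => geoM q)
    (fun _ => hM q ρ s)
  have h2 : (muY q n).prod (muH q ρ s n) =
      (Measure.pi fun _ : V n => (geoM q).prod (hM q ρ s)).map
        (MeasurableEquiv.arrowProdEquivProdArrow ℕ (Bool × ℕ) (V n)) := h1.map_eq.symm
  rw [h2, Measure.map_map Measurable.of_discrete
    (MeasurableEquiv.arrowProdEquivProdArrow ℕ (Bool × ℕ) (V n)).measurable]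
  have h3 : (fun z : (V n → ℕ) × (V n → Bool × ℕ) => Wt s z.1 z.2) ∘
      (MeasurableEquiv.arrowProdEquivProdArrow ℕ (Bool × ℕ) (V n)) =
      fun (p : V n → ℕ × Bool × ℕ) v => w1 s (p v) := by
    funext p v
    rfl
  rw [h3]
  have h4 : ∀ _v : V n, SigmaFinite (((geoM q).prod (hM q ρ s)).map (w1 s)) := by
    intro _
    rw [w1_law hP]
    infer_instance
  have h5 := Measure.pi_map_pi (μ := fun _ : V n => (geoM q).prod (hM q ρ s))
    (f := fun _ => w1 s) (hμ := h4) (fun _ => (Measurable.of_discrete).aemeasurable)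
  rw [h5]
  unfold muY
  congr 1
  funext _
  exact w1_law hP

/-! ### bounds -/

theorem gg_le {q ρ : ℝ} {s : ℕ} (hP : Par q ρ s) {n : ℕ} (y : V n → ℕ) :
    |gg q ρ s y| ≤ ∑ v, (y v : ℝ) + n ^ 2 * (1 + mean q) := by
  have hh := hM_prob hP
  have hH := muH_prob hP n
  have hb := be_prob hP.2.2.1 hP.2.2.2.1
  have hn := nuS_prob hP.1 hP.2.1 s
  obtain ⟨hi, hm⟩ := nuS_mean hP
  have h1 : ∀ v : V n, Integrable (fun h : V n → Bool × ℕ => ((h v).2 : ℝ)) (muH q ρ s n) ∧
      ∫ h : V n → Bool × ℕ, ((h v).2 : ℝ) ∂(muH q ρ s n) = ∫ k : ℕ, (k : ℝ) ∂(nuS q s) := by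
    intro v
    have e1 : MeasurePreserving (Function.eval v) (muH q ρ s n) (hM q ρ s) :=
      measurePreserving_eval (fun _ : V n => hM q ρ s) v
    have e2 : MeasurePreserving (Prod.snd : Bool × ℕ → ℕ) (hM q ρ s) (nuS q s) := by
      rw [hM_eq]
      exact measurePreserving_snd
    have e3 := e2.comp e1
    have e4 : MeasurePreserving (fun h : V n → Bool × ℕ => (h v).2) (muH q ρ s n) (nuS q s) := e3
    refine ⟨e4.integrable_comp_of_integrable hi, ?_⟩
    have e5 := integral_map (μ := muH q ρ s n) (φ := fun h : V n → Bool × ℕ => (h v).2)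
      (f := fun k : ℕ => (k : ℝ)) (Measurable.of_discrete).aemeasurable
      (Measurable.of_discrete).aestronglyMeasurable
    rw [e4.map_eq] at e5
    exact e5.symm
  have h2 : ∀ h : V n → Bool × ℕ, ‖(Tc (Wt s y h) : ℝ)‖ ≤ ∑ v, ((y v : ℝ) + (s + ((h v).2 : ℝ))) := by
    intro h
    rw [Real.norm_eq_abs, abs_of_nonneg (by positivity)]
    have h3 : (Tc (Wt s y h) : ℝ) ≤ ((∑ v, Wt s y h v : ℕ) : ℝ) := by exact_mod_cast Tc_le _
    refine h3.trans ?_
    rw [Nat.cast_sum]
    refine Finset.sum_le_sum fun v _ => ?_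
    unfold Wt
    split_ifs
    · push_cast
      have : (0 : ℝ) ≤ ((h v).2 : ℝ) := by positivity
      linarith
    · have e1 : (0 : ℝ) ≤ (y v : ℝ) := by positivity
      have e2 : (0 : ℝ) ≤ (s : ℝ) := by positivity
      linarith
  have h3 : Integrable (fun h : V n → Bool × ℕ => ∑ v, ((y v : ℝ) + (s + ((h v).2 : ℝ))))
      (muH q ρ s n) :=
    integrable_finsetSum _ fun v _ =>
      (integrable_const _).add ((integrable_const _).add (h1 v).1)
  have h4 := norm_integral_le_of_norm_le h3 (Filter.Eventually.of_forall h2)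
  have h5 : ∫ h : V n → Bool × ℕ, ∑ v, ((y v : ℝ) + (s + ((h v).2 : ℝ))) ∂(muH q ρ s n) =
      ∑ v : V n, ((y v : ℝ) + (s + ∫ k : ℕ, (k : ℝ) ∂(nuS q s))) := by
    have h6 : ∀ v : V n, Integrable (fun h : V n → Bool × ℕ => (s : ℝ) + ((h v).2 : ℝ))
        (muH q ρ s n) := fun v => (integrable_const _).add (h1 v).1
    have h7 : ∀ v : V n, Integrable (fun h : V n → Bool × ℕ => (y v : ℝ) + ((s : ℝ) + ((h v).2 : ℝ)))
        (muH q ρ s n) := fun v => (integrable_const _).add (h6 v)
    rw [integral_finsetSum Finset.univ (fun v _ => h7 v)]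
    refine Finset.sum_congr rfl fun v _ => ?_
    rw [integral_add (integrable_const _) (h6 v), integral_add (integrable_const _) (h1 v).1,
      (h1 v).2]
    simp
  rw [h5, Real.norm_eq_abs] at h4
  refine h4.trans ?_
  rw [Finset.sum_add_distrib, Finset.sum_const, nsmul_eq_mul, Finset.card_univ, Fintype.card_prod,
    Fintype.card_fin]
  have h6 : ((n * n : ℕ) : ℝ) * ((s : ℝ) + ∫ k : ℕ, (k : ℝ) ∂(nuS q s)) ≤
      (n : ℝ) ^ 2 * (1 + mean q) := by
    push_cast
    rw [← sq]
    exact mul_le_mul_of_nonneg_left hm (by positivity)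
  linarith

theorem gLaw : GLaw := by
  intro q ρ s hP n
  have h0 := hP.1
  have h1 := hP.2.1
  have hY := muY_prob h0 h1 n
  refine ⟨hY, muH_prob hP n, law hP n, ?_, muY_int h0 h1 n, gg_le hP, ?_⟩
  · intro r
    refine (muY_int h0 h1 n r).mono' (Measurable.of_discrete).aestronglyMeasurable
      (Filter.Eventually.of_forall fun W => ?_)
    rw [Real.norm_eq_abs, abs_of_nonneg (by positivity)]
    refine pow_le_pow_left₀ (by positivity) ?_ r
    have h3 : (Tc W : ℝ) ≤ ((∑ v, W v : ℕ) : ℝ) := by exact_mod_cast Tc_le _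
    rwa [Nat.cast_sum] at h3
  · have h2 : MemLp (fun y : V n → ℕ => ∑ v, (y v : ℝ) + n ^ 2 * (1 + mean q)) 2 (muY q n) := by
      have := muY_memLp h0 h1 n 2
      exact MemLp.add (by exact_mod_cast this) (memLp_const _)
    exact h2.mono' (Measurable.of_discrete).aestronglyMeasurable
      (Filter.Eventually.of_forall fun y => by rw [Real.norm_eq_abs]; exact gg_le hP y)

end Pool.Agent.W45.LPG0
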